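import Pool.Agent.Lib.MP_a78e1f_lc.U.Iface
import Pool.Agent.Lib.MP_6d445e_gt.H20.Idw

/-!
# Module RLB: small families of names of points come from an earlier stage
-/

set_option autoImplicit false

universe u v w

open Cardinal Filter MeasureTheory

namespace Pool.Agent.Lib.MP_a78e1f_lc.H82

open Pool.Agent.Lib.MP_100a6c_lc
open Pool.Agent.Lib.MP_e6fef2_lc
open Pool.Agent.Lib.MP_6d445e_gt (Idw)

theorem rlb : RlbStatement.{u} := by
  intro κ I _ _ hI A _ f B _ e hTop hold T hT x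
  choose k a hka using fun (t : T) (n : ℕ) => hold (x t n)
  have hZ : #(Set.range fun p : T × ℕ => k p.1 p.2) < κ := by
    refine lt_of_le_of_lt Cardinal.mk_range_le ?_
    have h1 : #(T × ℕ) = #T * ℵ₀ := by simp
    rw [h1]
    exact Cardinal.mul_lt_of_lt hI.reg.aleph0_le hT hI.unc
  obtain ⟨i, hi⟩ := Pool.Agent.Lib.MP_6d445e_gt.H20.bdd hI _ hZ
  refine ⟨i, fun t n => f (k t n) i (a t n), fun t n => ?_⟩
  rw [hTop.comp (k t n) i (hi _ ⟨(t, n), rfl⟩).le, ← hka t n]

end Pool.Agent.Lib.MP_a78e1f_lc.H82
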