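import Pool.Agent.Lib.MP_a78e1f_lc.H57.Dmt
import Pool.Agent.Lib.MP_a78e1f_lc.H57.Ind
import Pool.Agent.Lib.MP_6d445e_gt.H20.Idw

/-!
# Module SML: small dense `σ`-subalgebras in countable support iterations
-/

set_option autoImplicit false

universe u v w

open Cardinal Filter MeasureTheory

namespace Pool.Agent.Lib.MP_a78e1f_lc.H82

open Pool.Agent.Lib.MP_100a6c_lc
open Pool.Agent.Lib.MP_c5d73d_lc.F (pr)
open Pool.Agent.Lib.MP_e6fef2_lc
open Pool.Agent.Lib.MP_6d445e_gt (Idw Ult ae IsMil)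

/-! ### The generated `σ`-subalgebra -/

section

variable {A : Type u} [CompleteBooleanAlgebra A]

/-- the `σ`-subalgebra generated by `X` -/
def sg (X : Set A) : Set A := ⋂₀ {M | SigC M ∧ X ⊆ M}

theorem sg_sig (X : Set A) : SigC (sg X) :=
  ⟨fun _ hM => hM.1.top, fun x hx M hM => hM.1.compl x (hx M hM),
    fun x hx M hM => hM.1.sup x fun n => hx n M hM⟩

theorem sub_sg (X : Set A) : X ⊆ sg X := fun _ hx _ hM => hM.2 hx

theorem mk_sg_lt {κ : Cardinal.{u}} (hp : ∀ c < κ, c ^ ℵ₀ < κ) (hu : ℵ₀ < κ) {X : Set A}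
    (h : #X < κ) : #(sg X) < κ := by
  obtain ⟨M, hM1, hM2, hM3⟩ := all_idx.2.2.2.2 κ A X hp hu h
  exact lt_of_le_of_lt (Cardinal.mk_le_mk_of_subset fun x hx => hx M ⟨hM1, hM2⟩) hM3

variable (𝒯 : Set (List ℕ) → Prop)

/-- the generators from a dense set of the ground algebra -/
def gn (M : Set A) : Set (tC 𝒯 A) := (tE 𝒯 A '' M) ∪
  Set.range fun p : M × {τ : TX 𝒯 A // ∀ t, τ.1 t ∈ M} => tE 𝒯 A p.1.1 ⊓ tG p.2.1

theorem mk_gn_lt {κ : Cardinal.{u}} (hr : ℵ₀ ≤ κ) (hp : ∀ c < κ, c ^ ℵ₀ < κ) {M : Set A}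
    (h : #M < κ) : #(gn 𝒯 M) < κ := by
  refine lt_of_le_of_lt (Cardinal.mk_union_le _ _) (Cardinal.add_lt_of_lt hr ?_ ?_)
  · exact lt_of_le_of_lt Cardinal.mk_image_le h
  · refine lt_of_le_of_lt Cardinal.mk_range_le ?_
    rw [Cardinal.mk_prod, Cardinal.lift_id, Cardinal.lift_id]
    refine Cardinal.mul_lt_of_lt hr h ?_
    refine lt_of_le_of_lt (b := #(List ℕ → M)) ?_ ?_
    · refine Cardinal.mk_le_of_injective
        (f := fun τ : {τ : TX 𝒯 A // ∀ t, τ.1 t ∈ M} => fun t => (⟨τ.1.1 t, τ.2 t⟩ : M)) ?_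
      intro τ τ' hτ
      refine Subtype.ext (Subtype.ext (funext fun t => ?_))
      exact congrArg Subtype.val (congrFun hτ t)
    · have h2 : #(List ℕ → M) = #M ^ ℵ₀ := by simp
      rw [h2]
      exact hp _ h

end

/-! ### The recursion -/

section

variable {I : Type u} [LinearOrder I] [WellFoundedLT I] {𝒯 : Set (List ℕ) → Prop} (A : I → Type u)
  [∀ i, CompleteBooleanAlgebra (A i)] (f : ∀ i j, A i → A j)
  (φ : ∀ i j, i ⋖ j → tC 𝒯 (A i) → A j)

/-- the generators of stage `i` -/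
def gs (i : I) (Z : ∀ j, j < i → Set (A j)) : Set (A i) := ⋃ j : Set.Iio i,
  (f j.1 i '' Z j.1 j.2) ∪ {a | ∃ h : j.1 ⋖ i, a ∈ φ j.1 i h '' gn 𝒯 (Z j.1 j.2)}

/-- the small dense sets -/
noncomputable def MM : ∀ i, Set (A i) :=
  (wellFounded_lt (α := I)).fix fun i Z => sg (gs A f φ i Z)

theorem MM_eq (i : I) : MM A f φ i = sg (gs A f φ i fun j _ => MM A f φ j) :=
  (wellFounded_lt (α := I)).fix_eq _ i

theorem MM_sig (i : I) : SigC (MM A f φ i) := by
  rw [MM_eq]
  exact sg_sig _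

theorem MM_map {i j : I} (h : i < j) {m : A i} (hm : m ∈ MM A f φ i) : f i j m ∈ MM A f φ j := by
  rw [MM_eq A f φ j]
  exact sub_sg _ (Set.mem_iUnion.2 ⟨⟨i, h⟩, Or.inl (Set.mem_image_of_mem _ hm)⟩)

theorem MM_gn {i j : I} (h : i ⋖ j) {c : tC 𝒯 (A i)} (hc : c ∈ gn 𝒯 (MM A f φ i)) :
    φ i j h c ∈ MM A f φ j := by
  rw [MM_eq A f φ j]
  exact sub_sg _ (Set.mem_iUnion.2 ⟨⟨i, h.1⟩, Or.inr ⟨h, Set.mem_image_of_mem _ hc⟩⟩)

theorem MM_card {κ : Cardinal.{u}} (hI : Idw κ I) (i : I) : #(MM A f φ i) < κ := by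
  induction i using (wellFounded_lt (α := I)).induction with
  | _ i ih =>
    rw [MM_eq]
    refine mk_sg_lt hI.pow hI.unc (H60.small_union hI.reg (hI.seg i) _ fun j => ?_)
    refine lt_of_le_of_lt (Cardinal.mk_union_le _ _) (Cardinal.add_lt_of_lt hI.reg.aleph0_le ?_ ?_)
    · exact lt_of_le_of_lt Cardinal.mk_image_le (ih j.1 j.2)
    · by_cases h : j.1 ⋖ i
      · refine lt_of_le_of_lt (Cardinal.mk_le_mk_of_subset (t := φ j.1 i h '' gn 𝒯 (MM A f φ j.1))
          fun a ha => ha.2) ?_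
        exact lt_of_le_of_lt Cardinal.mk_image_le
          (mk_gn_lt 𝒯 hI.reg.aleph0_le hI.pow (ih j.1 j.2))
      · have h0 : ({a | ∃ h : j.1 ⋖ i, a ∈ φ j.1 i h '' gn 𝒯 (MM A f φ j.1)} : Set (A i)) = ∅ :=
          Set.eq_empty_of_forall_notMem fun a ha => h ha.1
        rw [h0, Cardinal.mk_eq_zero]
        exact lt_trans Cardinal.aleph0_pos hI.unc

end

/-- the embedding of the two-element algebra in a proper algebra -/
theorem io_pe {A : Type u} [CompleteBooleanAlgebra A] (h : (⊥ : A) ≠ ⊤) (hp : Prp A) :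
    PE (H57.io A) := by
  obtain ⟨-, -, -, -, -, -, -, -, -, -, -, -, -, -, -, -, -, hpb, -⟩ :=
    all_alg _ _ (H57.io A) (H57.io_ce h)
  filter_upwards [hp] with N hN c hc
  by_cases h0 : c = ⊥
  · subst h0
    rw [(hpb ⊥).2 rfl, inf_bot_eq]
    exact bot_le
  · have h1 := hN c hc h0
    rcases H57.ro_one (prj (H57.io A) (gen A N ⊓ c)) with h2 | h2
    · exact absurd ((hpb _).1 h2) h1
    · rw [h2]
      exact le_top

theorem sgc_one : SGC PUnit.{u + 1} := by
  filter_upwards [all_club.2.2.2.1 PUnit.{u + 1} PUnit.unit] with N hN s _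
  refine ⟨s, le_rfl, fun D _ hD => ?_⟩
  obtain ⟨q, -, hq⟩ := hD PUnit.unit
  exact ⟨q, hq, by cases q; exact hN, by cases q; cases s; exact le_rfl⟩

theorem dm_one {A : Type u} [CompleteBooleanAlgebra A] {M : Set A} :
    DM (H57.io A) M ↔ ∀ a : A, a ≠ ⊥ → ∃ m ∈ M, m ≠ ⊥ ∧ m ≤ a := by
  constructor
  · intro h a ha
    obtain ⟨s, m, hm, h1, h2⟩ := h a ha
    cases s
    rw [H57.io_pr, top_inf_eq] at h1 h2
    exact ⟨m, hm, h1, h2⟩
  · intro h a ha
    obtain ⟨m, hm, hm0, hma⟩ := h a ha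
    refine ⟨PUnit.unit, m, hm, ?_, ?_⟩
    · rw [H57.io_pr, top_inf_eq]
      exact hm0
    · rw [H57.io_pr, top_inf_eq]
      exact hma

/-- Module SML. -/
theorem sml (hdmt : DmtStatement.{u}) : SmlStatement.{u} := by
  intro κ I _ _ hI 𝒯 hT A _ f B _ e hC hpe hprp
  choose φ hφce hφsur hφ using hC.succ
  -- all the algebras are nontrivial
  have hnt : ∀ i, (⊥ : A i) ≠ ⊤ := by
    intro i
    obtain ⟨i0, hi0⟩ : ∃ i0 : I, ∀ j, i0 ≤ j := by
      obtain ⟨m, -, hm⟩ := (wellFounded_lt (α := I)).has_min Set.univ ⟨i, trivial⟩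
      exact ⟨m, fun j => not_lt.1 (hm j trivial)⟩
    have h1 := (hC.zero i0 hi0).1
    have hce := hC.ch.ce i0 i (hi0 i)
    obtain ⟨htop, hbot, -⟩ := all_alg _ _ _ hce
    intro h2
    apply h1
    apply hce.inj
    rw [htop, hbot, h2]
  refine ⟨MM A f φ, MM_sig A f φ, MM_card A f φ hI, ?_, ?_⟩
  · intro i
    induction i using (wellFounded_lt (α := I)).induction with
    | _ i ih =>
      rcases H57.tri i with hmin | ⟨j, hj⟩ | hlim
      · intro a ha
        have h1 := (hC.zero i hmin).2 a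
        rcases h1 with h1 | h1
        · exact absurd h1 ha
        · exact ⟨⊤, (MM_sig A f φ i).top, fun h => hnt i h.symm, h1 ▸ le_rfl⟩
      · intro a ha
        obtain ⟨c, rfl⟩ := hφsur j i hj a
        have hce := hφce j i hj
        obtain ⟨-, hbot, -, -, hle, -⟩ := all_alg _ _ _ hce
        have hc : c ≠ ⊥ := fun h => ha (by rw [h, hbot])
        obtain ⟨m, hm, hm0, hmc⟩ := hdmt 𝒯 hT (A j) (hprp j) (MM A f φ j) (MM_sig A f φ j)
          (ih j hj.1) {c | φ j i hj c ∈ MM A f φ i}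
          (fun m hm => MM_gn A f φ hj (Or.inl (Set.mem_image_of_mem _ hm)))
          (fun b hb τ hτ => MM_gn A f φ hj (Or.inr ⟨(⟨b, hb⟩, ⟨τ, hτ⟩), rfl⟩)) c hc
        refine ⟨φ j i hj m, hm, fun h => hm0 (hce.inj (by rw [h, hbot])), (hle m c).2 hmc⟩
      · have hne : Nonempty (Set.Iio i) := by
          by_contra hcon
          apply hlim.1
          intro b hb
          by_contra hlt
          exact hcon ⟨⟨b, not_le.1 hlt⟩⟩
        obtain ⟨j0⟩ := hne
        have hne' : Nonempty (Set.Iio i) := ⟨j0⟩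
        have hrdm := all_rdm PUnit.{u + 1} sgc_one (Set.Iio i) (fun j => A j.1)
          (fun j k => f j.1 k.1) (A i) (fun j => f j.1 i) (fun j => H57.io (A j.1))
          (fun j => MM A f φ j.1) (H57.ch_iio hC.ch i) (H57.top_iio hC.ch i)
          (H57.tp_iio (hC.tp i hlim)) (H57.dp_iio (hC.dp i hlim))
          (fun j k h => hpe j.1 k.1 h) (fun j => H57.io_ce (hnt j.1))
          (fun j => io_pe (hnt j.1) (hprp j.1)) ?_ (fun j => MM_sig A f φ j.1)
          (fun j => dm_one.2 (ih j.1 j.2)) ?_ (MM A f φ i) (MM_sig A f φ i)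
          (fun j m hm => MM_map A f φ j.2 hm) j0
        · obtain ⟨htop, -⟩ := all_alg _ _ _ (hC.ch.ce j0.1 i j0.2.le)
          intro a ha
          obtain ⟨s, m, hm, h1, h2⟩ := hrdm a ha
          cases s
          have h3 : (fun x => f j0.1 i (H57.io (A j0.1) x)) (pr PUnit.unit) = ⊤ := by
            change f j0.1 i (H57.io (A j0.1) (pr PUnit.unit)) = ⊤
            rw [H57.io_pr, htop]
          rw [h3, top_inf_eq] at h1 h2
          exact ⟨m, hm, h1, h2⟩
        · intro j k hjk x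
          obtain ⟨htop, hbot, -⟩ := all_alg _ _ _ (hC.ch.ce j.1 k.1 hjk)
          rcases H57.ro_one x with h | h
          · rw [h, H57.io_bot, H57.io_bot, hbot]
          · rw [h, H57.io_top, H57.io_top, htop]
        · intro j k hjk m hm
          rcases eq_or_lt_of_le (show j.1 ≤ k.1 from hjk) with h | h
          · have : j = k := Subtype.ext h
            subst this
            rw [hC.ch.id]
            exact hm
          · exact MM_map A f φ h hm
  · intro i j hij m hm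
    rcases eq_or_lt_of_le hij with h | h
    · subst h
      rw [hC.ch.id]
      exact hm
    · exact MM_map A f φ h hm

end Pool.Agent.Lib.MP_a78e1f_lc.H82
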